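import Pool.Agent.Lib.MP_abd978_an.H11.Mos1a

/-!
# MOS1: the Moser iteration
-/

set_option autoImplicit false

open MeasureTheory Metric Set Filter Topology ContDiff
open scoped Gradient RealInnerProductSpace

namespace Pool.Agent.Lib.MP_abd978_an.H11

variable {n : ℕ}

/-- iteration of `N (i+1) ≤ (A b^i X)^(ρ^i) N i` -/
theorem iterate {A b X ρ : ℝ} (hA : 1 ≤ A) (hb : 1 ≤ b) (hX : 1 ≤ X) (hρ0 : 0 < ρ) (hρ1 : ρ < 1)
    {N : ℕ → ℝ} (hN0 : 0 ≤ N 0)
    (hN : ∀ i : ℕ, N (i + 1) ≤ (A * b ^ i * X) ^ (ρ ^ i) * N i) (i : ℕ) :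
    N i ≤ A ^ (∑' j : ℕ, ρ ^ j) * b ^ (∑' j : ℕ, (j : ℝ) * ρ ^ j) * X ^ (∑' j : ℕ, ρ ^ j) * N 0 := by
  have hA0 : 0 < A := by linarith
  have hb0 : 0 < b := by linarith
  have hX0 : 0 < X := by linarith
  have h1 : ∀ i : ℕ, N i ≤ A ^ (∑ j ∈ Finset.range i, ρ ^ j)
      * b ^ (∑ j ∈ Finset.range i, (j : ℝ) * ρ ^ j) * X ^ (∑ j ∈ Finset.range i, ρ ^ j) * N 0 := by
    intro i
    induction i with
    | zero => simp
    | succ i ih =>
      have h2 : (A * b ^ i * X) ^ (ρ ^ i) = A ^ (ρ ^ i) * b ^ ((i : ℝ) * ρ ^ i) * X ^ (ρ ^ i) := by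
        rw [Real.mul_rpow (by positivity) hX0.le, Real.mul_rpow hA0.le (by positivity),
          ← Real.rpow_natCast b i, ← Real.rpow_mul hb0.le]
      have h3 := (hN i).trans (mul_le_mul_of_nonneg_left ih (by positivity))
      refine h3.trans (le_of_eq ?_)
      rw [h2, Finset.sum_range_succ, Finset.sum_range_succ, Real.rpow_add hA0, Real.rpow_add hb0,
        Real.rpow_add hX0]
      ring
  have hs0 : Summable fun j : ℕ => ρ ^ j := summable_geometric_of_lt_one hρ0.le hρ1
  have hs1 : Summable fun j : ℕ => (j : ℝ) * ρ ^ j := by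
    have := summable_pow_mul_geometric_of_norm_lt_one 1 (r := ρ)
      (by rw [Real.norm_eq_abs, abs_of_pos hρ0]; exact hρ1)
    simpa using this
  have h4 : ∑ j ∈ Finset.range i, ρ ^ j ≤ ∑' j : ℕ, ρ ^ j :=
    hs0.sum_le_tsum _ fun j _ => by positivity
  have h5 : ∑ j ∈ Finset.range i, (j : ℝ) * ρ ^ j ≤ ∑' j : ℕ, (j : ℝ) * ρ ^ j :=
    hs1.sum_le_tsum _ fun j _ => by positivity
  refine (h1 i).trans (mul_le_mul_of_nonneg_right ?_ hN0)
  refine mul_le_mul (mul_le_mul (Real.rpow_le_rpow_of_exponent_le hA h4)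
    (Real.rpow_le_rpow_of_exponent_le hb h5) (by positivity) (by positivity))
    (Real.rpow_le_rpow_of_exponent_le hX h4) (by positivity) (by positivity)

/-- Chebyshev -/
theorem cheb {μ : Measure (E n)} [IsLocallyFiniteMeasure μ] {z : E n} {s t Λ : ℝ} {G : E n → ℝ}
    (hst : s < t) (hG0 : ∀ x, 0 < G x) (hΛ : 0 < Λ) {q τ : ℕ → ℝ}
    (hq : Tendsto q atTop atTop) (hq0 : ∀ i, 0 < q i) (hτ : ∀ i, s ≤ τ i ∧ τ i ≤ t)
    (hpos : ∀ i, 0 < μ.real (ball z (τ i)))
    (hint : ∀ r : ℝ, IntegrableOn (fun x => G x ^ r) (ball z t) μ)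
    (hN : ∀ i, (⨍ y in ball z (τ i), G y ^ (q i) ∂μ) ^ (1 / q i) ≤ Λ) :
    ∀ᵐ x ∂(μ.restrict (ball z s)), G x ≤ Λ := by
  have key : ∀ l : ℝ, Λ < l → (μ.restrict (ball z s)).real {x | l ≤ G x} = 0 := by
    intro l hl
    have hl0 : 0 < l := hΛ.trans hl
    have h1 : ∀ i, (μ.restrict (ball z s)).real {x | l ≤ G x}
        ≤ μ.real (ball z t) * (Λ / l) ^ (q i) := by
      intro i
      have hi := hint (q i)
      have e1 : {x : E n | l ≤ G x} = {x : E n | l ^ (q i) ≤ G x ^ (q i)} := by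
        ext x
        exact (Real.rpow_le_rpow_iff hl0.le (hG0 x).le (hq0 i)).symm
      have e2 := mul_meas_ge_le_integral_of_nonneg (μ := μ.restrict (ball z s))
        (f := fun x => G x ^ (q i)) (Eventually.of_forall fun x => (Real.rpow_pos_of_pos (hG0 x) _).le)
        (hi.mono_set (ball_subset_ball hst.le)) (l ^ (q i))
      rw [← e1] at e2
      have e3 : ∫ x in ball z s, G x ^ (q i) ∂μ ≤ ∫ x in ball z (τ i), G x ^ (q i) ∂μ :=
        setIntegral_mono_set (hi.mono_set (ball_subset_ball (hτ i).2))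
          (Eventually.of_forall fun x => (Real.rpow_pos_of_pos (hG0 x) _).le)
          (Eventually.of_forall (ball_subset_ball (hτ i).1))
      have e4 : ∫ x in ball z (τ i), G x ^ (q i) ∂μ ≤ μ.real (ball z t) * Λ ^ (q i) := by
        have f1 := hN i
        have f2 : 0 ≤ ∫ x in ball z (τ i), G x ^ (q i) ∂μ :=
          integral_nonneg fun x => (Real.rpow_pos_of_pos (hG0 x) _).le
        rw [setAverage_eq, smul_eq_mul] at f1
        have f3 : 0 ≤ (μ.real (ball z (τ i)))⁻¹ * ∫ x in ball z (τ i), G x ^ (q i) ∂μ :=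
          mul_nonneg (inv_nonneg.2 (hpos i).le) f2
        have f4 := Real.rpow_le_rpow (Real.rpow_nonneg f3 _) f1 (hq0 i).le
        rw [← Real.rpow_mul f3, one_div_mul_cancel (hq0 i).ne', Real.rpow_one,
          inv_mul_le_iff₀ (hpos i)] at f4
        refine f4.trans (mul_le_mul_of_nonneg_right ?_ (by positivity))
        exact measureReal_mono (ball_subset_ball (hτ i).2) (finite_ball μ z _)
      have e5 : l ^ (q i) * (μ.restrict (ball z s)).real {x | l ≤ G x}
          ≤ μ.real (ball z t) * Λ ^ (q i) := e2.trans (e3.trans e4)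
      rw [Real.div_rpow hΛ.le hl0.le, mul_div_assoc', le_div_iff₀ (by positivity), mul_comm]
      exact e5
    have h2 : Tendsto (fun i => μ.real (ball z t) * (Λ / l) ^ (q i)) atTop
        (𝓝 (μ.real (ball z t) * 0)) := by
      refine Tendsto.const_mul _ ?_
      exact (tendsto_rpow_atTop_of_base_lt_one (Λ / l)
        (by have : 0 < Λ / l := by positivity
            linarith) ((div_lt_one hl0).2 hl)).comp hq
    rw [mul_zero] at h2
    exact le_antisymm (ge_of_tendsto' h2 h1) measureReal_nonneg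
  have h3 : ∀ k : ℕ, ∀ᵐ x ∂(μ.restrict (ball z s)), G x ≤ Λ + 1 / ((k : ℝ) + 1) := by
    intro k
    have h4 := key (Λ + 1 / ((k : ℝ) + 1)) (by
      have : (0:ℝ) < 1 / ((k : ℝ) + 1) := by positivity
      linarith)
    have hfin : IsFiniteMeasure (μ.restrict (ball z s)) :=
      ⟨by rw [Measure.restrict_apply_univ]; exact (finite_ball μ z s).lt_top⟩
    rw [measureReal_eq_zero_iff] at h4
    rw [ae_iff]
    refine measure_mono_null (fun x hx => ?_) h4
    simp only [Set.mem_ofPred_eq, not_le] at hx ⊢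
    exact hx.le
  filter_upwards [ae_all_iff.2 h3] with x hx
  have h5 : Tendsto (fun k : ℕ => Λ + 1 / ((k : ℝ) + 1)) atTop (𝓝 (Λ + 0)) :=
    tendsto_const_nhds.add tendsto_one_div_add_atTop_nhds_zero_nat
  rw [add_zero] at h5
  exact ge_of_tendsto' h5 hx

/-- MOS1 -/
theorem mos1 (hcut : CutStatement) (hchain : ChainStatement) (hsob : Sob2Statement)
    (hcacp : CacpStatement) : Mos1Statement := by
  intro n p μ a α β hop
  obtain ⟨κ, K, hκ, hK, hstep⟩ := step1 hcut hchain hsob hcacp n p μ a α β hop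
  have hlf := hop.lf
  have hp : 1 < p := hop.hp
  have hp0 : 0 < p := by linarith
  have hκ0 : 0 < κ := by linarith
  set ρ : ℝ := 1 / κ with hρ
  have hρ0 : 0 < ρ := by positivity
  have hρ1 : ρ < 1 := by rw [hρ, div_lt_one hκ0]; exact hκ
  set A : ℝ := max 1 (2 * p * K ^ (1 / p)) with hA
  have hA1 : 1 ≤ A := le_max_left _ _
  set b : ℝ := 2 * κ with hb
  have hb1 : 1 ≤ b := by rw [hb]; linarith
  have hs0 : Summable fun j : ℕ => ρ ^ j := summable_geometric_of_lt_one hρ0.le hρ1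
  have hS0 : 0 < ∑' j : ℕ, ρ ^ j := hs0.tsum_pos (fun j => by positivity) 0 (by simp)
  refine ⟨A ^ (∑' j : ℕ, ρ ^ j) * b ^ (∑' j : ℕ, (j : ℝ) * ρ ^ j), ∑' j : ℕ, ρ ^ j,
    by positivity, hS0, ?_⟩
  intro D u v c d Φ z s t hB hΦ ht hts hst hD
  have hs : 0 < s := by linarith
  have hts0 : 0 < t - s := by linarith
  set X : ℝ := t / (t - s) with hX
  have hX1 : 1 ≤ X := by rw [hX, le_div_iff₀ hts0]; linarith
  have hGpos : ∀ x, 0 < Φ (u x) := fun x => hΦ.pos _ (hB.mem x)
  set q : ℕ → ℝ := fun i => p * κ ^ i with hq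
  set τ : ℕ → ℝ := fun i => s + (t - s) / 2 ^ i with hτ
  have hq0 : ∀ i, 0 < q i := fun i => by simp only [hq]; positivity
  have hqp : ∀ i, p ≤ q i := fun i => by
    simp only [hq]
    have : 1 ≤ κ ^ i := one_le_pow₀ hκ.le
    nlinarith
  have hτs : ∀ i, s < τ i := fun i => by
    simp only [hτ]
    have : 0 < (t - s) / 2 ^ i := by positivity
    linarith
  have hτt : ∀ i, τ i ≤ t := fun i => by
    simp only [hτ]
    have : (t - s) / 2 ^ i ≤ t - s := div_le_self hts0.le (one_le_pow₀ (by norm_num))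
    linarith
  have hτ' : ∀ i, τ i - τ (i + 1) = (t - s) / 2 ^ (i + 1) := fun i => by
    simp only [hτ, pow_succ]
    field_simp
    ring
  have hν : ∀ r : ℝ, IntegrableOn (fun x => Φ (u x) ^ r) (ball z t) μ := by
    intro r
    have hνfin : IsFiniteMeasure (μ.restrict (ball z t)) :=
      ⟨by rw [Measure.restrict_apply_univ]; exact (finite_ball μ z t).lt_top⟩
    have hum : AEStronglyMeasurable u (μ.restrict (ball z t)) :=
      (hB.sob.mono (ball_subset_closedBall.trans hD)).1.aestronglyMeasurable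
    obtain ⟨M, -, hM⟩ := bdd_comp (SN.contOn (SN.rpow hΦ.smooth hΦ.pos r)) hB.mem
    exact Integrable.of_bound (aesm_comp (SN.contOn (SN.rpow hΦ.smooth hΦ.pos r)) hum hB.mem) M
      (Eventually.of_forall hM)
  have hav0 : ∀ (w r : ℝ), 0 ≤ ⨍ y in ball z w, Φ (u y) ^ r ∂μ := by
    intro w r
    rw [setAverage_eq]
    exact smul_nonneg (by positivity)
      (integral_nonneg fun x => (Real.rpow_pos_of_pos (hGpos x) _).le)
  set N : ℕ → ℝ := fun i => (⨍ y in ball z (τ i), Φ (u y) ^ (q i) ∂μ) ^ (1 / q i) with hN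
  have hNstep : ∀ i : ℕ, N (i + 1) ≤ (A * b ^ i * X) ^ (ρ ^ i) * N i := by
    intro i
    have h1 := hstep D u v c d Φ z (τ (i + 1)) (τ i) (q i) hB hΦ (hs.trans (hτs _))
      (by have := hτs (i + 1); have := hτt i; linarith)
      (by
        have := hτ' i
        have : 0 < (t - s) / 2 ^ (i + 1) := by positivity
        linarith)
      ((closedBall_subset_closedBall (hτt i)).trans hD) (hqp i)
    have h2 : K * q i ^ p * (τ i / (τ i - τ (i + 1))) ^ p ≤ (A * b ^ i * X) ^ p := by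
      have e1 : τ i / (τ i - τ (i + 1)) ≤ 2 ^ (i + 1) * X := by
        rw [hτ' i, hX, div_le_iff₀ (by positivity)]
        have : 2 ^ (i + 1) * (t / (t - s)) * ((t - s) / 2 ^ (i + 1)) = t := by field_simp
        rw [this]
        exact hτt i
      have e1' : 0 ≤ τ i / (τ i - τ (i + 1)) := by
        rw [hτ' i]
        have := hτs i
        exact div_nonneg (by linarith) (by positivity)
      have e2 : K = (K ^ (1 / p)) ^ p := by
        rw [← Real.rpow_mul hK.le, one_div_mul_cancel hp0.ne', Real.rpow_one]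
      have e3 : K ^ (1 / p) * q i * (τ i / (τ i - τ (i + 1))) ≤ A * b ^ i * X := by
        have f1 : K ^ (1 / p) * q i * (τ i / (τ i - τ (i + 1)))
            ≤ K ^ (1 / p) * q i * (2 ^ (i + 1) * X) :=
          mul_le_mul_of_nonneg_left e1 (by have := hq0 i; positivity)
        have f2 : K ^ (1 / p) * q i * (2 ^ (i + 1) * X) = 2 * p * K ^ (1 / p) * b ^ i * X := by
          simp only [hq, hb, mul_pow, pow_succ]
          ring
        rw [f2] at f1
        refine f1.trans ?_
        refine mul_le_mul_of_nonneg_right (mul_le_mul_of_nonneg_right (le_max_right _ _)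
          (by positivity)) (by linarith)
      calc K * q i ^ p * (τ i / (τ i - τ (i + 1))) ^ p
          = (K ^ (1 / p) * q i * (τ i / (τ i - τ (i + 1)))) ^ p := by
            rw [Real.mul_rpow (by have := hq0 i; positivity) e1',
              Real.mul_rpow (by positivity) (hq0 i).le, ← e2]
        _ ≤ (A * b ^ i * X) ^ p :=
            Real.rpow_le_rpow (mul_nonneg (by have := hq0 i; positivity) e1') e3 hp0.le
    have h3 : (⨍ y in ball z (τ (i + 1)), Φ (u y) ^ (κ * q i) ∂μ) ^ (1 / κ)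
        ≤ (A * b ^ i * X) ^ p * ⨍ y in ball z (τ i), Φ (u y) ^ q i ∂μ :=
      h1.trans (mul_le_mul_of_nonneg_right h2 (hav0 _ _))
    have h4 := Real.rpow_le_rpow (Real.rpow_nonneg (hav0 _ _) _) h3
      (by have := hq0 i; positivity : 0 ≤ 1 / q i)
    have hqi := hq0 i
    have h5 : ((⨍ y in ball z (τ (i + 1)), Φ (u y) ^ (κ * q i) ∂μ) ^ (1 / κ)) ^ (1 / q i)
        = N (i + 1) := by
      rw [← Real.rpow_mul (hav0 _ _)]
      have e1 : q (i + 1) = κ * q i := by simp only [hq, pow_succ]; ring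
      simp only [hN]
      rw [e1]
      congr 1
      field_simp
    have h6 : ((A * b ^ i * X) ^ p * ⨍ y in ball z (τ i), Φ (u y) ^ q i ∂μ) ^ (1 / q i)
        = (A * b ^ i * X) ^ (ρ ^ i) * N i := by
      rw [Real.mul_rpow (by positivity) (hav0 _ _), ← Real.rpow_mul (by positivity)]
      congr 2
      simp only [hq, hρ, one_div, inv_pow]
      field_simp
    rw [h5, h6] at h4
    exact h4
  have hN0 : N 0 = (⨍ y in ball z t, Φ (u y) ^ p ∂μ) ^ (1 / p) := by
    simp [hN, hτ, hq]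
  have hN0pos : 0 < N 0 := by
    rw [hN0]
    refine Real.rpow_pos_of_pos ?_ _
    rw [setAverage_eq, smul_eq_mul]
    refine mul_pos (inv_pos.2 (hop.pos z t ht)) ?_
    rw [setIntegral_pos_iff_support_of_nonneg_ae
      (Eventually.of_forall fun x => (Real.rpow_pos_of_pos (hGpos x) _).le) (hν p)]
    have e1 : (Function.support fun x => Φ (u x) ^ p) ∩ ball z t = ball z t := by
      refine inter_eq_right.2 fun x _ => ?_
      exact (Real.rpow_pos_of_pos (hGpos x) _).ne'
    rw [e1]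
    have := hop.pos z t ht
    by_contra hcon
    rw [not_lt, nonpos_iff_eq_zero] at hcon
    rw [measureReal_def, hcon] at this
    simp at this
  have hall := iterate hA1 hb1 hX1 hρ0 hρ1 hN0pos.le hNstep
  rw [hN0] at hall
  refine cheb hst hGpos ?_ (q := q) (τ := τ) ?_ hq0 (fun i => ⟨(hτs i).le, hτt i⟩)
    (fun i => hop.pos z _ (hs.trans (hτs i))) hν hall
  · have : 0 < (⨍ y in ball z t, Φ (u y) ^ p ∂μ) ^ (1 / p) := by rw [← hN0]; exact hN0pos
    positivity
  · exact (tendsto_pow_atTop_atTop_of_one_lt hκ).const_mul_atTop hp0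

end Pool.Agent.Lib.MP_abd978_an.H11
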