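import Pool.Agent.Lib.MP_abd978_an.H11.Mos1

/-!
# MOS2: the mean value inequality with exponent one
-/

set_option autoImplicit false

open MeasureTheory Metric Set Filter Topology ContDiff
open scoped Gradient RealInnerProductSpace

namespace Pool.Agent.Lib.MP_abd978_an.H11

variable {n : ℕ}

theorem iterate2 {P : ℕ → ℝ → Prop} {A b X θ : ℝ} (hA : 1 ≤ A) (hb : 1 ≤ b) (hX : 0 < X)
    (hθ0 : 0 < θ) (h : ∀ (k : ℕ) (c : ℝ), 0 < c → P (k + 1) c →
      P k (A * b ^ k * c ^ θ * X ^ (1 - θ))) (K : ℕ) : ∀ c : ℝ, 0 < c → P K c →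
    P 0 (A ^ (∑ j ∈ Finset.range K, θ ^ j) * b ^ (∑ j ∈ Finset.range K, (j : ℝ) * θ ^ j)
      * c ^ (θ ^ K) * X ^ (1 - θ ^ K)) := by
  have hA0 : 0 < A := by linarith
  have hb0 : 0 < b := by linarith
  induction K with
  | zero => intro c hc hP; simpa using hP
  | succ K ih =>
    intro c hc hP
    have h1 := ih _ (by positivity) (h K c hc hP)
    convert h1 using 1
    have h2 : (A * b ^ K * c ^ θ * X ^ (1 - θ)) ^ (θ ^ K)
        = A ^ (θ ^ K) * b ^ ((K : ℝ) * θ ^ K) * c ^ (θ * θ ^ K) * X ^ ((1 - θ) * θ ^ K) := by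
      rw [Real.mul_rpow (by positivity) (by positivity),
        Real.mul_rpow (by positivity) (by positivity), Real.mul_rpow hA0.le (by positivity),
        ← Real.rpow_natCast b K, ← Real.rpow_mul hb0.le, ← Real.rpow_mul hc.le,
        ← Real.rpow_mul hX.le]
    have h3 : X ^ (1 - θ ^ (K + 1)) = X ^ ((1 - θ) * θ ^ K) * X ^ (1 - θ ^ K) := by
      rw [← Real.rpow_add hX]
      congr 1
      ring
    have h4 : θ ^ (K + 1) = θ * θ ^ K := by ring
    rw [h2, Finset.sum_range_succ, Finset.sum_range_succ, Real.rpow_add hA0, Real.rpow_add hb0,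
      h3, h4]
    ring

/-- MOS2 -/
theorem mos2 (h1 : Mos1Statement) : Mos2Statement := by
  intro n p μ a α β hop
  obtain ⟨C, γ, hC, hγ, hM⟩ := h1 n p μ a α β hop
  obtain ⟨CD, hCD, hdbl⟩ := hop.dbl
  have hlf := hop.lf
  have hp : 1 < p := hop.hp
  have hp0 : 0 < p := by linarith
  set θ : ℝ := 1 - 1 / p with hθ
  have hθ0 : 0 < θ := by
    have : 1 / p < 1 := by rw [div_lt_one hp0]; exact hp
    rw [hθ]; linarith
  have hθ1 : θ < 1 := by
    have : 0 < 1 / p := by positivity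
    rw [hθ]; linarith
  set A : ℝ := max 1 (C * (2 ^ 2) ^ γ * CD ^ (1 / p)) with hA
  have hA1 : 1 ≤ A := le_max_left _ _
  set b : ℝ := 2 ^ γ with hb
  have hb1 : 1 ≤ b := Real.one_le_rpow (by norm_num) hγ.le
  refine ⟨A ^ (∑' j : ℕ, θ ^ j) * b ^ (∑' j : ℕ, (j : ℝ) * θ ^ j), by positivity, ?_⟩
  intro D u v c d Φ z t hB hΦ ht hD
  have hGpos : ∀ x, 0 < Φ (u x) := fun x => hΦ.pos _ (hB.mem x)
  have hνfin : IsFiniteMeasure (μ.restrict (ball z t)) :=
    ⟨by rw [Measure.restrict_apply_univ]; exact (finite_ball μ z t).lt_top⟩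
  have hum : AEStronglyMeasurable u (μ.restrict (ball z t)) :=
    (hB.sob.mono (ball_subset_closedBall.trans hD)).1.aestronglyMeasurable
  have hν : ∀ r : ℝ, IntegrableOn (fun x => Φ (u x) ^ r) (ball z t) μ := by
    intro r
    obtain ⟨M, -, hM⟩ := bdd_comp (SN.contOn (SN.rpow hΦ.smooth hΦ.pos r)) hB.mem
    exact Integrable.of_bound (aesm_comp (SN.contOn (SN.rpow hΦ.smooth hΦ.pos r)) hum hB.mem) M
      (Eventually.of_forall hM)
  have hν1 : IntegrableOn (fun x => Φ (u x)) (ball z t) μ := by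
    have := hν 1
    simpa using this
  obtain ⟨B, hB0, hBb⟩ := bdd_comp (SN.contOn hΦ.smooth) hB.mem
  set X : ℝ := ⨍ y in ball z t, Φ (u y) ∂μ with hX
  have hX0 : 0 < X := by
    rw [hX, setAverage_eq, smul_eq_mul]
    refine mul_pos (inv_pos.2 (hop.pos z t ht)) ?_
    rw [setIntegral_pos_iff_support_of_nonneg_ae
      (Eventually.of_forall fun x => (hGpos x).le) hν1]
    have e1 : (Function.support fun x => Φ (u x)) ∩ ball z t = ball z t :=
      inter_eq_right.2 fun x _ => (hGpos x).ne'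
    rw [e1]
    have := hop.pos z t ht
    by_contra hcon
    rw [not_lt, nonpos_iff_eq_zero] at hcon
    rw [measureReal_def, hcon] at this
    simp at this
  set τ : ℕ → ℝ := fun k => t * (1 - 1 / 2 ^ (k + 1)) with hτ
  have hpow : ∀ k : ℕ, (0:ℝ) < 1 / 2 ^ (k + 1) ∧ (1:ℝ) / 2 ^ (k + 1) ≤ 1 / 2 := by
    intro k
    refine ⟨by positivity, ?_⟩
    rw [pow_succ]
    have : (1:ℝ) ≤ 2 ^ k := one_le_pow₀ (by norm_num)
    apply div_le_div_of_nonneg_left zero_le_one (by norm_num)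
    linarith
  have hτ1 : ∀ k, t / 2 ≤ τ k := fun k => by
    simp only [hτ]
    have := (hpow k).2
    nlinarith
  have hτ2 : ∀ k, τ k < t := fun k => by
    simp only [hτ]
    have := (hpow k).1
    nlinarith
  have hτ3 : ∀ k, τ (k + 1) - τ k = t / 2 ^ (k + 2) := fun k => by
    simp only [hτ, pow_succ]
    field_simp
    ring
  have hstep : ∀ (k : ℕ) (c : ℝ), 0 < c →
      (∀ᵐ x ∂(μ.restrict (ball z (τ (k + 1)))), Φ (u x) ≤ c) →
      ∀ᵐ x ∂(μ.restrict (ball z (τ k))), Φ (u x) ≤ A * b ^ k * c ^ θ * X ^ (1 - θ) := by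
    intro k c' hc' hP
    have t0 : 0 < τ (k + 1) := by have := hτ1 (k + 1); linarith
    have t1 : 0 < t / 2 ^ (k + 2) := by positivity
    have s1 := hM D u v c d Φ z (τ k) (τ (k + 1)) hB hΦ t0
      (by have := hτ1 k; have := hτ2 (k + 1); linarith)
      (by have := hτ3 k; linarith)
      ((closedBall_subset_closedBall (hτ2 (k + 1)).le).trans hD)
    filter_upwards [s1] with x hx
    refine hx.trans ?_
    -- the average of `G ^ p`
    have a1 : ⨍ y in ball z (τ (k + 1)), Φ (u y) ^ p ∂μ ≤ c' ^ (p - 1) * (CD * X) := by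
      have b1 : ∫ y in ball z (τ (k + 1)), Φ (u y) ^ p ∂μ
          ≤ ∫ y in ball z (τ (k + 1)), c' ^ (p - 1) * Φ (u y) ∂μ := by
        refine integral_mono_ae ((hν p).mono_set (ball_subset_ball (hτ2 _).le))
          ((hν1.mono_set (ball_subset_ball (hτ2 _).le)).const_mul _) ?_
        filter_upwards [hP] with y hy
        have e1 : Φ (u y) ^ p = Φ (u y) ^ (p - 1) * Φ (u y) := by
          rw [← Real.rpow_add_one (hGpos y).ne']
          congr 1; ring
        rw [e1]
        exact mul_le_mul_of_nonneg_right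
          (Real.rpow_le_rpow (hGpos y).le hy (by linarith)) (hGpos y).le
      have b2 : ⨍ y in ball z (τ (k + 1)), Φ (u y) ∂μ ≤ CD * X :=
        avg_le hop.toGeo hCD hdbl t0 (hτ2 _).le (by have := hτ1 (k + 1); linarith)
          (fun x _ => rfl) (fun x => (hGpos x).le) hν1
      have b3 : ⨍ y in ball z (τ (k + 1)), Φ (u y) ^ p ∂μ
          ≤ c' ^ (p - 1) * ⨍ y in ball z (τ (k + 1)), Φ (u y) ∂μ := by
        rw [setAverage_eq, setAverage_eq, smul_eq_mul, smul_eq_mul]
        rw [integral_const_mul] at b1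
        have := mul_le_mul_of_nonneg_left b1 (inv_nonneg.2 (hop.pos z _ t0).le)
        refine this.trans (le_of_eq ?_)
        ring
      exact b3.trans (mul_le_mul_of_nonneg_left b2 (by positivity))
    have a0 : 0 ≤ ⨍ y in ball z (τ (k + 1)), Φ (u y) ^ p ∂μ := by
      rw [setAverage_eq]
      exact smul_nonneg (by positivity)
        (integral_nonneg fun x => (Real.rpow_pos_of_pos (hGpos x) _).le)
    have a2 : (⨍ y in ball z (τ (k + 1)), Φ (u y) ^ p ∂μ) ^ (1 / p)
        ≤ c' ^ θ * (CD ^ (1 / p) * X ^ (1 - θ)) := by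
      have e1 := Real.rpow_le_rpow a0 a1 (by positivity : 0 ≤ 1 / p)
      rw [Real.mul_rpow (by positivity) (by positivity), Real.mul_rpow (by linarith) hX0.le,
        ← Real.rpow_mul hc'.le] at e1
      have e2 : (p - 1) * (1 / p) = θ := by rw [hθ]; field_simp
      have e3 : 1 - θ = 1 / p := by rw [hθ]; ring
      rw [e2] at e1
      rw [e3]
      exact e1
    have a3 : (τ (k + 1) / (τ (k + 1) - τ k)) ^ γ ≤ (2 ^ 2) ^ γ * b ^ k := by
      rw [hτ3 k]
      have e1 : τ (k + 1) / (t / 2 ^ (k + 2)) ≤ 2 ^ 2 * 2 ^ k := by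
        rw [div_le_iff₀ t1]
        have : (2:ℝ) ^ 2 * 2 ^ k * (t / 2 ^ (k + 2)) = t := by
          rw [pow_add]; field_simp
        rw [this]
        exact (hτ2 _).le
      have e2 := Real.rpow_le_rpow (by positivity) e1 hγ.le
      refine e2.trans (le_of_eq ?_)
      rw [Real.mul_rpow (by positivity) (by positivity), hb, ← Real.rpow_natCast (2 ^ γ) k,
        ← Real.rpow_natCast 2 k, ← Real.rpow_mul (by norm_num), ← Real.rpow_mul (by norm_num),
        mul_comm γ]
    have a4 : 0 ≤ (τ (k + 1) / (τ (k + 1) - τ k)) ^ γ := by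
      rw [hτ3 k]; positivity
    calc C * (τ (k + 1) / (τ (k + 1) - τ k)) ^ γ
          * (⨍ y in ball z (τ (k + 1)), Φ (u y) ^ p ∂μ) ^ (1 / p)
        ≤ C * ((2 ^ 2) ^ γ * b ^ k) * (c' ^ θ * (CD ^ (1 / p) * X ^ (1 - θ))) := by
          refine mul_le_mul (mul_le_mul_of_nonneg_left a3 hC.le) a2 (by positivity) (by positivity)
      _ = (C * (2 ^ 2) ^ γ * CD ^ (1 / p)) * (b ^ k * c' ^ θ * X ^ (1 - θ)) := by ring
      _ ≤ A * (b ^ k * c' ^ θ * X ^ (1 - θ)) :=
          mul_le_mul_of_nonneg_right (le_max_right _ _) (by positivity)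
      _ = A * b ^ k * c' ^ θ * X ^ (1 - θ) := by ring
  have hall := fun K => iterate2 (P := fun k c => ∀ᵐ x ∂(μ.restrict (ball z (τ k))), Φ (u x) ≤ c)
    hA1 hb1 hX0 hθ0 hstep K B hB0
    (Eventually.of_forall fun x => (le_abs_self _).trans (hBb x))
  have hτ0 : τ 0 = t / 2 := by simp only [hτ]; ring
  simp only [hτ0] at hall
  filter_upwards [ae_all_iff.2 hall] with x hx
  have hs0 : Summable fun j : ℕ => θ ^ j := summable_geometric_of_lt_one hθ0.le hθ1
  have hs1 : Summable fun j : ℕ => (j : ℝ) * θ ^ j := by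
    have := summable_pow_mul_geometric_of_norm_lt_one 1 (r := θ)
      (by rw [Real.norm_eq_abs, abs_of_pos hθ0]; exact hθ1)
    simpa using this
  have l0 : Tendsto (fun K : ℕ => θ ^ K) atTop (𝓝 0) := tendsto_pow_atTop_nhds_zero_of_lt_one hθ0.le hθ1
  have l1 : Tendsto (fun K : ℕ => A ^ (∑ j ∈ Finset.range K, θ ^ j)) atTop
      (𝓝 (A ^ (∑' j : ℕ, θ ^ j))) :=
    (Real.continuous_const_rpow (by linarith)).continuousAt.tendsto.comp hs0.hasSum.tendsto_sum_nat
  have l2 : Tendsto (fun K : ℕ => b ^ (∑ j ∈ Finset.range K, (j : ℝ) * θ ^ j)) atTop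
      (𝓝 (b ^ (∑' j : ℕ, (j : ℝ) * θ ^ j))) :=
    (Real.continuous_const_rpow (by linarith)).continuousAt.tendsto.comp hs1.hasSum.tendsto_sum_nat
  have l3 : Tendsto (fun K : ℕ => B ^ (θ ^ K)) atTop (𝓝 (B ^ (0:ℝ))) :=
    (Real.continuous_const_rpow hB0.ne').continuousAt.tendsto.comp l0
  have l4 : Tendsto (fun K : ℕ => X ^ (1 - θ ^ K)) atTop (𝓝 (X ^ (1 - (0:ℝ)))) :=
    (Real.continuous_const_rpow hX0.ne').continuousAt.tendsto.comp (tendsto_const_nhds.sub l0)
  have l5 := ((l1.mul l2).mul l3).mul l4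
  rw [Real.rpow_zero, sub_zero, Real.rpow_one, mul_one] at l5
  exact ge_of_tendsto' l5 hx

end Pool.Agent.Lib.MP_abd978_an.H11
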