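import Pool.Agent.Lib.MP_abd978_an.Interfaces

/-!
# Tools for compositions `Θ ∘ u` and for the Moser iteration (modules MOS1, MOS2)
-/

set_option autoImplicit false

open MeasureTheory Metric Set Filter Topology ContDiff
open scoped Gradient RealInnerProductSpace

namespace Pool.Agent.Lib.MP_abd978_an.H11

variable {n : ℕ}

theorem SN.contOn {Θ : ℝ → ℝ} {c d : ℝ} (h : SmoothNear Θ c d) : ContinuousOn Θ (Icc c d) := by
  obtain ⟨O, -, h2, h3⟩ := h
  exact h3.continuousOn.mono h2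

theorem SN.contOn_deriv {Θ : ℝ → ℝ} {c d : ℝ} (h : SmoothNear Θ c d) :
    ContinuousOn (deriv Θ) (Icc c d) := by
  obtain ⟨O, h1, h2, h3⟩ := h
  exact (h3.continuousOn_deriv_of_isOpen h1 (by simp)).mono h2

theorem SN.diff {Θ : ℝ → ℝ} {c d : ℝ} (h : SmoothNear Θ c d) {t : ℝ} (ht : t ∈ Icc c d) :
    DifferentiableAt ℝ Θ t := by
  obtain ⟨O, h1, h2, h3⟩ := h
  exact ((h3.contDiffAt (h1.mem_nhds (h2 ht))).differentiableAt (by simp))

/-- measurability of compositions -/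
theorem aesm_comp {ν : Measure (E n)} {u : E n → ℝ} {Θ : ℝ → ℝ} {c d : ℝ}
    (hΘ : ContinuousOn Θ (Icc c d)) (hu : AEStronglyMeasurable u ν) (hm : ∀ x, u x ∈ Icc c d) :
    AEStronglyMeasurable (fun x => Θ (u x)) ν := by
  have hcd : c ≤ d := (hm 0).1.trans (hm 0).2
  have h1 : Continuous fun t : ℝ => Θ (projIcc c d hcd t) :=
    hΘ.comp_continuous (continuous_subtype_val.comp continuous_projIcc) fun t => (projIcc c d hcd t).2
  have h2 : (fun x => Θ (u x)) = fun x => (fun t : ℝ => Θ (projIcc c d hcd t)) (u x) := by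
    funext x
    simp only
    rw [projIcc_of_mem hcd (hm x)]
  rw [h2]
  exact h1.comp_aestronglyMeasurable hu

theorem bdd_comp {u : E n → ℝ} {Θ : ℝ → ℝ} {c d : ℝ} (hΘ : ContinuousOn Θ (Icc c d))
    (hm : ∀ x, u x ∈ Icc c d) : ∃ M, 0 < M ∧ ∀ x, |Θ (u x)| ≤ M := by
  obtain ⟨M, hM⟩ := isCompact_Icc.exists_bound_of_continuousOn hΘ
  exact ⟨max M 1, by positivity, fun x => (hM (u x) (hm x)).trans (le_max_left _ _)⟩

/-- powers -/
theorem SN.rpow {Φ : ℝ → ℝ} {c d : ℝ} (h : SmoothNear Φ c d) (hp : ∀ t ∈ Icc c d, 0 < Φ t)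
    (r : ℝ) : SmoothNear (fun t => Φ t ^ r) c d := by
  obtain ⟨O, h1, h2, h3⟩ := h
  refine ⟨O ∩ Φ ⁻¹' (Ioi 0), h3.continuousOn.isOpen_inter_preimage h1 isOpen_Ioi,
    fun t ht => ⟨h2 ht, hp t ht⟩, ?_⟩
  refine (h3.mono inter_subset_left).rpow_const_of_ne fun t ht => ?_
  exact (ne_of_gt ht.2)

theorem deriv_rpow {Φ : ℝ → ℝ} {c d : ℝ} (h : SmoothNear Φ c d) (hp : ∀ t ∈ Icc c d, 0 < Φ t)
    (r : ℝ) {t : ℝ} (ht : t ∈ Icc c d) :
    deriv (fun t => Φ t ^ r) t = deriv Φ t * r * Φ t ^ (r - 1) :=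
  ((SN.diff h ht).hasDerivAt.rpow_const (Or.inl (hp t ht).ne')).deriv

theorem MemLp_isSob {μ : Measure (E n)} {p : ℝ} {D : Set (E n)} {u : E n → ℝ} {v : E n → E n}
    (h : IsSob μ p D u v) (hp : 0 < p) :
    Integrable (fun x => ‖v x‖ ^ p) (μ.restrict D) := by
  have h1 := h.2.1.integrable_norm_rpow (by simpa using hp) ENNReal.ofReal_ne_top
  rwa [ENNReal.toReal_ofReal hp.le] at h1

/-- `Test` functions: powers -/
theorem Test.pow {D : Set (E n)} {η : E n → ℝ} (h : Test D η) {m : ℕ} (hm : m ≠ 0) :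
    Test D fun x => η x ^ m := by
  have hs : Function.support (fun x => η x ^ m) ⊆ Function.support η := by
    intro x hx hx'
    apply hx
    simp only
    rw [hx', zero_pow hm]
  refine ⟨h.1.pow m, h.2.1.mono hs, (closure_mono hs).trans h.2.2⟩

theorem grad_pow {η : E n → ℝ} {x : E n} (h : DifferentiableAt ℝ η x) (m : ℕ) :
    ∇ (fun y => η y ^ m) x = ((m : ℝ) * η x ^ (m - 1)) • ∇ η x := by
  have h1 : HasFDerivAt (fun y => η y ^ m) (((m : ℝ) * η x ^ (m - 1)) • fderiv ℝ η x) x := by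
    have := (hasDerivAt_pow m (η x)).comp_hasFDerivAt x h.hasFDerivAt
    exact this
  rw [grad_of_hasFDerivAt h1, map_smulₛₗ]
  rfl

theorem norm_grad_pow_le {η : E n → ℝ} {x : E n} (h : DifferentiableAt ℝ η x) (m : ℕ)
    (h01 : η x ∈ Icc (0:ℝ) 1) : ‖∇ (fun y => η y ^ m) x‖ ≤ m * ‖∇ η x‖ := by
  rw [grad_pow h, norm_smul]
  refine mul_le_mul_of_nonneg_right ?_ (norm_nonneg _)
  rw [Real.norm_eq_abs, abs_of_nonneg (mul_nonneg (Nat.cast_nonneg _) (pow_nonneg h01.1 _))]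
  calc (m : ℝ) * η x ^ (m - 1) ≤ m * 1 :=
        mul_le_mul_of_nonneg_left (pow_le_one₀ h01.1 h01.2) (Nat.cast_nonneg _)
    _ = m := mul_one _

end Pool.Agent.Lib.MP_abd978_an.H11
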