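import Pool.Agent.Lib.MP_abd978_an.H11.Mos0

/-!
# MOS1, one step of the Moser iteration
-/

set_option autoImplicit false

open MeasureTheory Metric Set Filter Topology ContDiff
open scoped Gradient RealInnerProductSpace

namespace Pool.Agent.Lib.MP_abd978_an.H11

variable {n : ℕ}

theorem add_rpow_le {x y p : ℝ} (hx : 0 ≤ x) (hy : 0 ≤ y) (hp : 1 ≤ p) :
    (x + y) ^ p ≤ 2 ^ (p - 1) * (x ^ p + y ^ p) := by
  lift x to NNReal using hx
  lift y to NNReal using hy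
  exact_mod_cast NNReal.rpow_add_le_mul_rpow_add_rpow x y hp

theorem int_rpow {ν : Measure (E n)} {V : E n → E n} {p : ℝ} (h : MemLp V (ENNReal.ofReal p) ν)
    (hp : 0 < p) : Integrable (fun x => ‖V x‖ ^ p) ν := by
  have h1 := h.integrable_norm_rpow (by simpa using hp) ENNReal.ofReal_ne_top
  rwa [ENNReal.toReal_ofReal hp.le] at h1

theorem finite_ball (μ : Measure (E n)) [IsLocallyFiniteMeasure μ] (z : E n) (r : ℝ) :
    μ (ball z r) ≠ ⊤ :=
  ((measure_mono ball_subset_closedBall).trans_lt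
    (isCompact_closedBall z r).measure_lt_top).ne

/-- comparison of averages on two concentric balls -/
theorem avg_le {p : ℝ} {μ : Measure (E n)} (hg : Geo p μ) {CD : ℝ} (hCD : 1 ≤ CD)
    (hdbl : ∀ (z : E n) (r : ℝ), 0 < r → μ.real (ball z (2 * r)) ≤ CD * μ.real (ball z r))
    {z : E n} {s t : ℝ} (hs : 0 < s) (hst : s ≤ t) (hts : t ≤ 2 * s) {f g : E n → ℝ}
    (hf : ∀ x ∈ ball z s, f x = g x) (hg0 : ∀ x, 0 ≤ g x)
    (hgi : IntegrableOn g (ball z t) μ) :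
    ⨍ y in ball z s, f y ∂μ ≤ CD * ⨍ y in ball z t, g y ∂μ := by
  have := hg.lf
  have hps := hg.pos z s hs
  have hpt := hg.pos z t (hs.trans_le hst)
  have h1 : μ.real (ball z t) ≤ CD * μ.real (ball z s) :=
    (measureReal_mono (ball_subset_ball hts) (finite_ball μ z _)).trans (hdbl z s hs)
  have h2 : ∫ y in ball z s, f y ∂μ = ∫ y in ball z s, g y ∂μ :=
    setIntegral_congr_fun measurableSet_ball hf
  have h3 : ∫ y in ball z s, g y ∂μ ≤ ∫ y in ball z t, g y ∂μ :=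
    setIntegral_mono_set hgi (Eventually.of_forall hg0)
      (Eventually.of_forall (ball_subset_ball hst))
  have h4 : 0 ≤ ∫ y in ball z t, g y ∂μ := integral_nonneg hg0
  rw [setAverage_eq, setAverage_eq, h2, smul_eq_mul, smul_eq_mul, inv_mul_eq_div,
    inv_mul_eq_div, mul_div_assoc', div_le_div_iff₀ hps hpt]
  calc (∫ y in ball z s, g y ∂μ) * μ.real (ball z t)
      ≤ (∫ y in ball z t, g y ∂μ) * (CD * μ.real (ball z s)) :=
        mul_le_mul h3 h1 hpt.le h4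
    _ = _ := by ring

theorem step1 (hcut : CutStatement) (hchain : ChainStatement) (hsob : Sob2Statement)
    (hcacp : CacpStatement) (n : ℕ) (p : ℝ) (μ : Measure (E n)) (a : E n → E n → E n) (α β : ℝ)
    (hop : Op p μ a α β) :
    ∃ κ K : ℝ, 1 < κ ∧ 0 < K ∧ ∀ (D : Set (E n)) (u : E n → ℝ) (v : E n → E n) (c d : ℝ)
      (Φ : ℝ → ℝ) (z : E n) (s t q : ℝ), BSol μ p a D u v c d → Conv Φ c d → 0 < s →
      t ≤ 2 * s → s < t → closedBall z t ⊆ D → p ≤ q →
        (⨍ y in ball z s, Φ (u y) ^ (κ * q) ∂μ) ^ (1 / κ)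
          ≤ K * q ^ p * (t / (t - s)) ^ p * ⨍ y in ball z t, Φ (u y) ^ q ∂μ := by
  obtain ⟨CD, hCD, hdbl⟩ := hop.dbl
  obtain ⟨κ, CS, hκ, hCS, hS⟩ := hsob n p μ hop.toGeo
  obtain ⟨CC, hCC, hC⟩ := hcacp n p μ a α β hop
  obtain ⟨CT, hCT, hT⟩ := hcut n
  have hp : 1 < p := hop.hp
  have hp0 : 0 < p := by linarith
  set m : ℕ := ⌈p⌉₊ with hm
  have hm0 : m ≠ 0 := by
    rw [hm]
    exact (Nat.ceil_pos.2 hp0).ne'
  have hκ0 : 0 < κ := by linarith
  refine ⟨κ, CD ^ (1 / κ) * (CS * (2 ^ (p - 1) * ((m : ℝ) ^ p + CC) * (2 * CT) ^ p)), hκ,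
    by positivity, ?_⟩
  intro D u v c d Φ z s t q hB hΦ hs hts hst hD hq
  have hlf := hop.lf
  have ht : 0 < t := hs.trans hst
  have hq0 : 0 < q := hp0.trans_le hq
  obtain ⟨η, hη1, hη01, hηs, hηsupp, hηgrad⟩ := hT z s ((s + t) / 2) hs (by linarith)
  have hηB : Test (ball z t) η :=
    ⟨hη1.1, hη1.2.1, hηsupp.trans (closedBall_subset_ball (by linarith))⟩
  have hηD : Test D η := hηB.mono (ball_subset_closedBall.trans hD)
  have hηm : Test (ball z t) fun x => η x ^ m := Test.pow hηB hm0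
  have hηd : ∀ x, DifferentiableAt ℝ η x := fun x => (hη1.1.differentiable (by simp)) x
  have hF : SmoothNear (fun τ => Φ τ ^ (q / p)) c d := SN.rpow hΦ.smooth hΦ.pos _
  have hGpos : ∀ x, 0 < Φ (u x) := fun x => hΦ.pos _ (hB.mem x)
  -- measurability and bounds
  set ν : Measure (E n) := μ.restrict (ball z t) with hν
  have hνfin : IsFiniteMeasure ν :=
    ⟨by rw [hν, Measure.restrict_apply_univ]; exact (finite_ball μ z t).lt_top⟩
  have hsobB : IsSob μ p (ball z t) u v := hB.sob.mono (ball_subset_closedBall.trans hD)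
  have hum : AEStronglyMeasurable u ν := hsobB.1.aestronglyMeasurable
  have mG : ∀ r : ℝ, AEStronglyMeasurable (fun x => Φ (u x) ^ r) ν := fun r =>
    aesm_comp (SN.contOn (SN.rpow hΦ.smooth hΦ.pos r)) hum hB.mem
  have bG : ∀ r : ℝ, ∃ M, 0 < M ∧ ∀ x, |Φ (u x) ^ r| ≤ M := fun r =>
    bdd_comp (SN.contOn (SN.rpow hΦ.smooth hΦ.pos r)) hB.mem
  have iG : ∀ r : ℝ, Integrable (fun x => Φ (u x) ^ r) ν := by
    intro r
    obtain ⟨M, -, hM⟩ := bG r
    exact Integrable.of_bound (mG r) M (Eventually.of_forall hM)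
  -- the Sobolev inequality
  set V : E n → E n := fun x => Φ (u x) ^ (q / p) • ∇ (fun x => η x ^ m) x
    + (η x ^ m * deriv (fun τ => Φ τ ^ (q / p)) (u x)) • v x with hV
  have h0 : H0 μ p (ball z t) (fun x => η x ^ m * Φ (u x) ^ (q / p)) V :=
    hchain n μ p (ball z t) u v c d (fun τ => Φ τ ^ (q / p)) (fun x => η x ^ m) hp hop.lf
      isOpen_ball hsobB hB.mem hF hηm
  obtain ⟨M, hM0, hM⟩ := bG (q / p)
  have hηmle : ∀ x, 0 ≤ η x ^ m ∧ η x ^ m ≤ 1 := fun x =>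
    ⟨pow_nonneg (hη01 x).1 _, pow_le_one₀ (hη01 x).1 (hη01 x).2⟩
  have hbd : ∀ x, |η x ^ m * Φ (u x) ^ (q / p)| ≤ M := by
    intro x
    rw [abs_mul, abs_of_nonneg (hηmle x).1]
    calc η x ^ m * |Φ (u x) ^ (q / p)| ≤ 1 * |Φ (u x) ^ (q / p)| :=
          mul_le_mul_of_nonneg_right (hηmle x).2 (abs_nonneg _)
      _ ≤ M := by rw [one_mul]; exact hM x
  have S := hS z t _ V M ht h0 hbd
  -- lower bound for the left hand side
  have L1 : ⨍ y in ball z s, Φ (u y) ^ (κ * q) ∂μ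
      ≤ CD * ⨍ y in ball z t, |η y ^ m * Φ (u y) ^ (q / p)| ^ (κ * p) ∂μ := by
    refine avg_le hop.toGeo hCD hdbl hs hst.le hts (fun x hx => ?_) (fun x => by positivity) ?_
    · rw [hηs x (ball_subset_closedBall hx), one_pow, one_mul,
        abs_of_pos (Real.rpow_pos_of_pos (hGpos x) _), ← Real.rpow_mul (hGpos x).le]
      congr 1
      field_simp
    · refine Integrable.of_bound (μ := ν) ?_ (M ^ (κ * p)) (Eventually.of_forall fun x => ?_)
      · have h1 : AEStronglyMeasurable (fun x => η x ^ m * Φ (u x) ^ (q / p)) ν :=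
          (hη1.1.continuous.pow m).aestronglyMeasurable.mul (mG _)
        have h2 : Continuous fun x : ℝ => |x| ^ (κ * p) :=
          (continuous_abs).rpow_const fun x => Or.inr (by positivity)
        exact h2.comp_aestronglyMeasurable h1
      · rw [Real.norm_eq_abs, abs_of_nonneg (by positivity)]
        exact Real.rpow_le_rpow (abs_nonneg _) (hbd x) (by positivity)
  have X0 : 0 ≤ ⨍ y in ball z t, |η y ^ m * Φ (u y) ^ (q / p)| ^ (κ * p) ∂μ := by
    rw [setAverage_eq]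
    exact smul_nonneg (by positivity) (integral_nonneg fun x => by positivity)
  have Y0 : 0 ≤ ⨍ y in ball z s, Φ (u y) ^ (κ * q) ∂μ := by
    rw [setAverage_eq]
    exact smul_nonneg (by positivity)
      (integral_nonneg fun x => (Real.rpow_pos_of_pos (hGpos x) _).le)
  have L2 : (⨍ y in ball z s, Φ (u y) ^ (κ * q) ∂μ) ^ (1 / κ)
      ≤ CD ^ (1 / κ) * (⨍ y in ball z t, |η y ^ m * Φ (u y) ^ (q / p)| ^ (κ * p) ∂μ) ^ (1 / κ) := by
    rw [← Real.mul_rpow (by linarith) X0]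
    exact Real.rpow_le_rpow Y0 L1 (by positivity)
  -- upper bound for the right hand side
  set L : ℝ := 2 * CT / (t - s) with hL
  have hts0 : 0 < t - s := by linarith
  have hL0 : 0 < L := by positivity
  have hgrad : ∀ x, ‖∇ η x‖ ≤ L := by
    intro x
    refine (hηgrad x).trans (le_of_eq ?_)
    have e0 : (s + t) / 2 - s = (t - s) / 2 := by ring
    rw [hL, e0]
    field_simp
  have hVb : ∀ x, ‖V x‖ ^ p ≤ 2 ^ (p - 1) * ((m : ℝ) ^ p * (Φ (u x) ^ q * ‖∇ η x‖ ^ p)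
      + (q / p) ^ p * (η x ^ m * (Φ (u x) ^ (q - p) * |deriv Φ (u x)| ^ p * ‖v x‖ ^ p))) := by
    intro x
    have e1 : ‖V x‖ ≤ Φ (u x) ^ (q / p) * (m * ‖∇ η x‖)
        + η x ^ m * (|deriv Φ (u x)| * (q / p) * Φ (u x) ^ (q / p - 1)) * ‖v x‖ := by
      rw [hV]
      refine (norm_add_le _ _).trans (add_le_add ?_ ?_)
      · rw [norm_smul, Real.norm_eq_abs, abs_of_pos (Real.rpow_pos_of_pos (hGpos x) _)]
        exact mul_le_mul_of_nonneg_left (norm_grad_pow_le (hηd x) m (hη01 x))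
          (Real.rpow_pos_of_pos (hGpos x) _).le
      · rw [norm_smul, Real.norm_eq_abs, abs_mul, abs_of_nonneg (hηmle x).1,
          deriv_rpow hΦ.smooth hΦ.pos _ (hB.mem x), abs_mul, abs_mul,
          abs_of_pos (by positivity : 0 < q / p), abs_of_pos (Real.rpow_pos_of_pos (hGpos x) _)]
    have e2 : 0 ≤ Φ (u x) ^ (q / p) * (m * ‖∇ η x‖) := by
      have := Real.rpow_pos_of_pos (hGpos x) (q / p)
      positivity
    have hGx := hGpos x
    have hηx := (hηmle x).1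
    have e3 : 0 ≤ η x ^ m * (|deriv Φ (u x)| * (q / p) * Φ (u x) ^ (q / p - 1)) * ‖v x‖ := by
      have := Real.rpow_pos_of_pos (hGpos x) (q / p - 1)
      positivity
    have e4 : ‖V x‖ ^ p ≤ (Φ (u x) ^ (q / p) * (m * ‖∇ η x‖)
        + η x ^ m * (|deriv Φ (u x)| * (q / p) * Φ (u x) ^ (q / p - 1)) * ‖v x‖) ^ p :=
      Real.rpow_le_rpow (norm_nonneg _) e1 hp0.le
    refine e4.trans ((add_rpow_le e2 e3 hp.le).trans ?_)
    refine mul_le_mul_of_nonneg_left (add_le_add ?_ ?_) (by positivity)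
    · rw [Real.mul_rpow (Real.rpow_pos_of_pos hGx _).le (by positivity),
        Real.mul_rpow (by positivity) (norm_nonneg _), ← Real.rpow_mul hGx.le,
        div_mul_cancel₀ _ hp0.ne']
      exact le_of_eq (by ring)
    · rw [Real.mul_rpow (by positivity) (norm_nonneg _), Real.mul_rpow hηx (by positivity),
        Real.mul_rpow (by positivity) (Real.rpow_pos_of_pos hGx _).le,
        Real.mul_rpow (abs_nonneg _) (by positivity), ← Real.rpow_mul hGx.le]
      have e5 : (q / p - 1) * p = q - p := by field_simp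
      rw [e5]
      have e6 : (η x ^ m) ^ p ≤ η x ^ m := by
        rcases hηx.eq_or_lt with h | h
        · rw [← h, Real.zero_rpow hp0.ne']
        · calc (η x ^ m) ^ p ≤ (η x ^ m) ^ (1 : ℝ) :=
              Real.rpow_le_rpow_of_exponent_ge h (hηmle x).2 hp.le
            _ = η x ^ m := Real.rpow_one _
      have e7 : 0 ≤ |deriv Φ (u x)| ^ p * (q / p) ^ p * Φ (u x) ^ (q - p) := by
        have := Real.rpow_pos_of_pos hGx (q - p)
        positivity
      calc (η x ^ m) ^ p * (|deriv Φ (u x)| ^ p * (q / p) ^ p * Φ (u x) ^ (q - p)) * ‖v x‖ ^ p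
          ≤ η x ^ m * (|deriv Φ (u x)| ^ p * (q / p) ^ p * Φ (u x) ^ (q - p)) * ‖v x‖ ^ p :=
            mul_le_mul_of_nonneg_right (mul_le_mul_of_nonneg_right e6 e7) (by positivity)
        _ = _ := by ring
  have iV : Integrable (fun x => ‖V x‖ ^ p) ν := int_rpow (h0.2.1.restrict _) hp0
  have iv : Integrable (fun x => ‖v x‖ ^ p) ν := MemLp_isSob hsobB hp0
  have i1 : Integrable (fun x => Φ (u x) ^ q * ‖∇ η x‖ ^ p) ν := by
    obtain ⟨M', hM'0, hM'⟩ := bG q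
    refine Integrable.of_bound ((mG q).mul ?_) (M' * L ^ p) (Eventually.of_forall fun x => ?_)
    · have : Continuous fun x => ‖∇ η x‖ ^ p :=
        (continuous_grad hη1.1).norm.rpow_const fun x => Or.inr hp0.le
      exact this.aestronglyMeasurable
    · rw [norm_mul, Real.norm_eq_abs, Real.norm_eq_abs, abs_of_nonneg (by positivity : 0 ≤ ‖∇ η x‖ ^ p)]
      exact mul_le_mul (hM' x) (Real.rpow_le_rpow (norm_nonneg _) (hgrad x) hp0.le)
        (by positivity) hM'0.le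
  have i2 : Integrable (fun x => η x ^ m * (Φ (u x) ^ (q - p) * |deriv Φ (u x)| ^ p * ‖v x‖ ^ p))
      ν := by
    obtain ⟨M1, hM10, hM1⟩ := bG (q - p)
    have hcd' := SN.contOn_deriv hΦ.smooth
    have hc2 : ContinuousOn (fun τ => |deriv Φ τ| ^ p) (Icc c d) :=
      hcd'.abs.rpow_const fun x _ => Or.inr hp0.le
    obtain ⟨M2, hM20, hM2⟩ := bdd_comp hc2 hB.mem
    have h1 : (fun x => η x ^ m * (Φ (u x) ^ (q - p) * |deriv Φ (u x)| ^ p * ‖v x‖ ^ p))
        = fun x => (η x ^ m * (Φ (u x) ^ (q - p) * |deriv Φ (u x)| ^ p)) * ‖v x‖ ^ p := by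
      funext x; ring
    rw [h1]
    refine iv.bdd_mul (c := M1 * M2) ?_ (Eventually.of_forall fun x => ?_)
    · exact (hη1.1.continuous.pow m).aestronglyMeasurable.mul
        ((mG _).mul (aesm_comp hc2 hum hB.mem))
    · rw [norm_mul, norm_mul, Real.norm_eq_abs, Real.norm_eq_abs, Real.norm_eq_abs,
        abs_of_nonneg (hηmle x).1]
      calc η x ^ m * (|Φ (u x) ^ (q - p)| * |(|deriv Φ (u x)| ^ p)|)
          ≤ 1 * (M1 * M2) := by
            refine mul_le_mul (hηmle x).2 ?_ (by positivity) zero_le_one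
            exact mul_le_mul (hM1 x) (hM2 x) (abs_nonneg _) hM10.le
        _ = M1 * M2 := one_mul _
  have C1 := hC D u v c d Φ η q hB hΦ hηD hη01 hq
  have zero_out : ∀ x, x ∉ ball z t → η x = 0 := fun x hx =>
    image_eq_zero_of_notMem_tsupport fun h => hx (hηB.2.2 h)
  have zero_out' : ∀ x, x ∉ ball z t → ∇ η x = 0 := fun x hx =>
    grad_eq_zero_of_notMem fun h => hx (hηB.2.2 h)
  have r1 : ∫ x, η x ^ m * (Φ (u x) ^ (q - p) * |deriv Φ (u x)| ^ p * ‖v x‖ ^ p) ∂ν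
      = ∫ x, η x ^ m * (Φ (u x) ^ (q - p) * |deriv Φ (u x)| ^ p * ‖v x‖ ^ p) ∂μ := by
    refine setIntegral_eq_integral_of_forall_compl_eq_zero fun x hx => ?_
    rw [zero_out x hx, zero_pow hm0, zero_mul]
  have r2 : ∫ x, Φ (u x) ^ q * ‖∇ η x‖ ^ p ∂ν = ∫ x, Φ (u x) ^ q * ‖∇ η x‖ ^ p ∂μ := by
    refine setIntegral_eq_integral_of_forall_compl_eq_zero fun x hx => ?_
    rw [zero_out' x hx, norm_zero, Real.zero_rpow hp0.ne', mul_zero]
  rw [← r1, ← r2] at C1
  have r3 : ∫ x, Φ (u x) ^ q * ‖∇ η x‖ ^ p ∂ν ≤ L ^ p * ∫ x, Φ (u x) ^ q ∂ν := by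
    rw [← integral_const_mul]
    refine integral_mono i1 ((iG q).const_mul _) fun x => ?_
    simp only
    rw [mul_comm (L ^ p)]
    exact mul_le_mul_of_nonneg_left (Real.rpow_le_rpow (norm_nonneg _) (hgrad x) hp0.le)
      (Real.rpow_pos_of_pos (hGpos x) _).le
  set I : ℝ := ∫ x, Φ (u x) ^ q * ‖∇ η x‖ ^ p ∂ν with hI
  have hI0 : 0 ≤ I := integral_nonneg fun x => by
    have := Real.rpow_pos_of_pos (hGpos x) q
    positivity
  set J : ℝ := ∫ x, Φ (u x) ^ q ∂ν with hJ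
  have hJ0 : 0 ≤ J := integral_nonneg fun x => (Real.rpow_pos_of_pos (hGpos x) q).le
  have r4 : ∫ x, ‖V x‖ ^ p ∂ν ≤ 2 ^ (p - 1) * ((m : ℝ) ^ p * I + (q / p) ^ p * (CC * I)) := by
    have t1 : ∫ x, ‖V x‖ ^ p ∂ν ≤ ∫ x, 2 ^ (p - 1) * ((m : ℝ) ^ p * (Φ (u x) ^ q * ‖∇ η x‖ ^ p)
      + (q / p) ^ p * (η x ^ m * (Φ (u x) ^ (q - p) * |deriv Φ (u x)| ^ p * ‖v x‖ ^ p))) ∂ν :=
      integral_mono iV (((i1.const_mul _).add (i2.const_mul _)).const_mul _) hVb
    rw [integral_const_mul, integral_add (i1.const_mul _) (i2.const_mul _), integral_const_mul,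
      integral_const_mul] at t1
    refine t1.trans (mul_le_mul_of_nonneg_left (add_le_add le_rfl ?_) (by positivity))
    exact mul_le_mul_of_nonneg_left C1 (by positivity)
  have r5 : (m : ℝ) ^ p * I + (q / p) ^ p * (CC * I) ≤ ((m : ℝ) ^ p + CC) * q ^ p * (L ^ p * J) := by
    have hq1 : 1 ≤ q := hp.le.trans hq
    have f1 : 1 ≤ q ^ p := Real.one_le_rpow hq1 hp0.le
    have f2 : (q / p) ^ p ≤ q ^ p :=
      Real.rpow_le_rpow (by positivity) (div_le_self hq0.le hp.le) hp0.le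
    have f3 : (m : ℝ) ^ p * I ≤ (m : ℝ) ^ p * (q ^ p * I) := by
      refine mul_le_mul_of_nonneg_left ?_ (by positivity)
      calc I = 1 * I := (one_mul _).symm
        _ ≤ q ^ p * I := mul_le_mul_of_nonneg_right f1 hI0
    have f4 : (q / p) ^ p * (CC * I) ≤ q ^ p * (CC * I) :=
      mul_le_mul_of_nonneg_right f2 (by positivity)
    have f5 : ((m : ℝ) ^ p + CC) * q ^ p * I ≤ ((m : ℝ) ^ p + CC) * q ^ p * (L ^ p * J) :=
      mul_le_mul_of_nonneg_left r3 (by positivity)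
    calc (m : ℝ) ^ p * I + (q / p) ^ p * (CC * I)
        ≤ (m : ℝ) ^ p * (q ^ p * I) + q ^ p * (CC * I) := add_le_add f3 f4
      _ = ((m : ℝ) ^ p + CC) * q ^ p * I := by ring
      _ ≤ _ := f5
  have hpt := hop.pos z t ht
  have r6 : CS * t ^ p * ⨍ x in ball z t, ‖V x‖ ^ p ∂μ
      ≤ (CS * (2 ^ (p - 1) * ((m : ℝ) ^ p + CC) * (2 * CT) ^ p)) * q ^ p * (t / (t - s)) ^ p
        * ⨍ y in ball z t, Φ (u y) ^ q ∂μ := by
    rw [setAverage_eq, setAverage_eq, smul_eq_mul, smul_eq_mul]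
    have g1 : ∫ x, ‖V x‖ ^ p ∂ν ≤ 2 ^ (p - 1) * (((m : ℝ) ^ p + CC) * q ^ p * (L ^ p * J)) :=
      r4.trans (mul_le_mul_of_nonneg_left r5 (by positivity))
    have g2 : L ^ p * t ^ p = (2 * CT) ^ p * (t / (t - s)) ^ p := by
      rw [← Real.mul_rpow hL0.le ht.le, ← Real.mul_rpow (by positivity) (by positivity)]
      congr 1
      rw [hL]; ring
    calc CS * t ^ p * ((μ.real (ball z t))⁻¹ * ∫ x, ‖V x‖ ^ p ∂ν)
        ≤ CS * t ^ p * ((μ.real (ball z t))⁻¹ *
          (2 ^ (p - 1) * (((m : ℝ) ^ p + CC) * q ^ p * (L ^ p * J)))) := by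
          refine mul_le_mul_of_nonneg_left (mul_le_mul_of_nonneg_left g1 ?_) (by positivity)
          positivity
      _ = CS * (2 ^ (p - 1) * ((m : ℝ) ^ p + CC)) * q ^ p * (L ^ p * t ^ p)
          * ((μ.real (ball z t))⁻¹ * J) := by ring
      _ = _ := by rw [g2]; ring
  calc (⨍ y in ball z s, Φ (u y) ^ (κ * q) ∂μ) ^ (1 / κ)
      ≤ CD ^ (1 / κ) * (⨍ y in ball z t, |η y ^ m * Φ (u y) ^ (q / p)| ^ (κ * p) ∂μ) ^ (1 / κ) := L2
    _ ≤ CD ^ (1 / κ) * ((CS * (2 ^ (p - 1) * ((m : ℝ) ^ p + CC) * (2 * CT) ^ p)) * q ^ p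
        * (t / (t - s)) ^ p * ⨍ y in ball z t, Φ (u y) ^ q ∂μ) :=
        mul_le_mul_of_nonneg_left (S.trans r6) (by positivity)
    _ = _ := by ring

end Pool.Agent.Lib.MP_abd978_an.H11
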